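import Pool.Agent.D0H26.Nil.Stm3
import Pool.Agent.D0H26.Fac.Lin

/-!
# A linear automorphism without nonzero bounded two-sided orbits is hyperbolic
-/

set_option autoImplicit false

open Filter Topology Set Metric

namespace Pool.Agent.D0H65.NIL

open Pool.Agent.D0H26.Fac Pool.Agent.D0H26.Nil
open Pool.Agent.W740.TC (inc inc_norm)

/-- the complex linear map of a real matrix -/
noncomputable def rc {m : ℕ} (M : Matrix (Fin m) (Fin m) ℝ) : Module.End ℂ (Fin m → ℂ) :=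
  Matrix.toLin' (M.map Complex.ofReal)

theorem rc_apply {m : ℕ} (M : Matrix (Fin m) (Fin m) ℝ) (w : Fin m → ℂ) (i : Fin m) :
    rc M w i = ∑ j, (M i j : ℂ) * w j := by
  show (Matrix.toLin' (M.map Complex.ofReal) w) i = _
  rw [Matrix.toLin'_apply]
  rfl

theorem reL_rc {m : ℕ} (M : Matrix (Fin m) (Fin m) ℝ) (w : Fin m → ℂ) :
    reL m (rc M w) = Matrix.toLin' M (reL m w) := by
  funext i
  show (rc M w i).re = _
  rw [rc_apply, Matrix.toLin'_apply, Complex.re_sum]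
  refine Finset.sum_congr rfl fun j _ => ?_
  rw [Complex.re_ofReal_mul]
  rfl

theorem rc_inc {m : ℕ} (M : Matrix (Fin m) (Fin m) ℝ) (v : Fin m → ℝ) :
    rc M (inc m v) = inc m (Matrix.toLin' M v) := by
  funext i
  rw [rc_apply, Matrix.toLin'_apply]
  show ∑ j, (M i j : ℂ) * (v j : ℂ) = ((∑ j, M i j * v j : ℝ) : ℂ)
  push_cast
  rfl

theorem rc_inv {m : ℕ} (M N : Matrix (Fin m) (Fin m) ℝ) (h : M * N = 1) (w : Fin m → ℂ) :
    rc M (rc N w) = w := by
  funext i
  rw [rc_apply]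
  have e1 : ∀ j, (M i j : ℂ) * rc N w j = ∑ k, ((M i j * N j k : ℝ) : ℂ) * w k := by
    intro j
    rw [rc_apply, Finset.mul_sum]
    refine Finset.sum_congr rfl fun k _ => ?_
    push_cast
    ring
  rw [Finset.sum_congr rfl fun j _ => e1 j, Finset.sum_comm]
  have e2 : ∀ k, ∑ j, ((M i j * N j k : ℝ) : ℂ) * w k = (((M * N) i k : ℝ) : ℂ) * w k := by
    intro k
    rw [← Finset.sum_mul, Matrix.mul_apply]
    push_cast
    rfl
  rw [Finset.sum_congr rfl fun k _ => e2 k, h]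
  rw [Finset.sum_eq_single i]
  · rw [Matrix.one_apply_eq]
    simp
  · intro k _ hk
    rw [Matrix.one_apply_ne (Ne.symm hk)]
    simp
  · intro hi
    exact absurd (Finset.mem_univ i) hi

/-- no eigenvalue of modulus one -/
theorem noeig {m : ℕ} (T : (Fin m → ℝ) ≃ₗ[ℝ] (Fin m → ℝ))
    (M : Matrix (Fin m) (Fin m) ℝ) (hM : ∀ v, Matrix.toLin' M v = T v)
    (H : ∀ (v : Fin m → ℝ) (K : ℝ), (∀ n : ℕ, ‖T^[n] v‖ ≤ K) → (∀ n : ℕ, ‖T.symm^[n] v‖ ≤ K) →
      v = 0) (μ : ℂ) (hev : (rc M).HasEigenvalue μ) : ‖μ‖ ≠ 1 := by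
  intro hμ
  obtain ⟨w, hw⟩ := hev.exists_hasEigenvector
  have hw1 : rc M w = μ • w := hw.apply_eq_smul
  have hμ0 : μ ≠ 0 := by
    intro h
    rw [h, norm_zero] at hμ
    exact zero_ne_one hμ
  have hTc : ∀ c : ℂ, T (reL m (c • w)) = reL m ((c * μ) • w) := by
    intro c
    rw [← hM, ← reL_rc, map_smul, hw1, smul_smul]
  have hTn : ∀ (n : ℕ) (c : ℂ), T^[n] (reL m (c • w)) = reL m ((c * μ ^ n) • w) := by
    intro n
    induction n with
    | zero => intro c; simp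
    | succ n ih =>
      intro c
      rw [Function.iterate_succ_apply, hTc, ih]
      congr 2
      ring
  have hSc : ∀ c : ℂ, T.symm (reL m (c • w)) = reL m ((c * μ⁻¹) • w) := by
    intro c
    rw [LinearEquiv.symm_apply_eq, hTc, mul_assoc c, inv_mul_cancel₀ hμ0, mul_one]
  have hSn : ∀ (n : ℕ) (c : ℂ),
      T.symm^[n] (reL m (c • w)) = reL m ((c * μ⁻¹ ^ n) • w) := by
    intro n
    induction n with
    | zero => intro c; simp
    | succ n ih =>
      intro c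
      rw [Function.iterate_succ_apply, hSc, ih]
      congr 2
      ring
  have hz : ∀ c : ℂ, ‖c‖ = 1 → reL m (c • w) = 0 := by
    intro c hc
    have hbd : ∀ d : ℂ, ‖d‖ = 1 → ‖reL m ((c * d) • w)‖ ≤ ‖w‖ := by
      intro d hd
      refine (reL_norm _).trans ?_
      rw [norm_smul, norm_mul, hc, hd, one_mul, one_mul]
    refine H _ ‖w‖ (fun n => ?_) (fun n => ?_)
    · rw [hTn]
      exact hbd _ (by rw [norm_pow, hμ, one_pow])
    · rw [hSn]
      exact hbd _ (by rw [norm_pow, norm_inv, hμ, inv_one, one_pow])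
  apply hw.2
  funext i
  have h1 : ((1 : ℂ) * w i).re = 0 := congrFun (hz 1 norm_one) i
  have h2 : ((-Complex.I) * w i).re = 0 := congrFun (hz (-Complex.I) (by simp)) i
  rw [one_mul] at h1
  rw [neg_mul, Complex.neg_re, Complex.I_mul_re, neg_neg] at h2
  exact Complex.ext h1 h2

/-- the splitting in coordinates -/
theorem hsp_fin {m : ℕ} (T : (Fin m → ℝ) ≃ₗ[ℝ] (Fin m → ℝ))
    (H : ∀ (v : Fin m → ℝ) (K : ℝ), (∀ n : ℕ, ‖T^[n] v‖ ≤ K) → (∀ n : ℕ, ‖T.symm^[n] v‖ ≤ K) →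
      v = 0) : Nonempty (HSp T) := by
  set A : Matrix (Fin m) (Fin m) ℝ := LinearMap.toMatrix' (T : (Fin m → ℝ) →ₗ[ℝ] (Fin m → ℝ))
    with hA
  set A' : Matrix (Fin m) (Fin m) ℝ :=
    LinearMap.toMatrix' (T.symm : (Fin m → ℝ) →ₗ[ℝ] (Fin m → ℝ)) with hA'
  have hT : ∀ v, Matrix.toLin' A v = T v := by
    intro v
    rw [hA, Matrix.toLin'_toMatrix']
    rfl
  have hTs : ∀ v, Matrix.toLin' A' v = T.symm v := by
    intro v
    rw [hA', Matrix.toLin'_toMatrix']
    rfl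
  have hAA : A * A' = 1 := by
    rw [hA, hA', ← LinearMap.toMatrix'_comp, LinearEquiv.comp_coe, LinearEquiv.symm_trans_self,
      LinearEquiv.refl_toLinearMap, LinearMap.toMatrix'_id]
  have hAA' : A' * A = 1 := by
    rw [hA, hA', ← LinearMap.toMatrix'_comp, LinearEquiv.comp_coe, LinearEquiv.self_trans_symm,
      LinearEquiv.refl_toLinearMap, LinearMap.toMatrix'_id]
  obtain ⟨s, u, C, l, hC, hl0, hl1, hadd, hcs, hcu, hbs, hbu⟩ :=
    complex_split (rc A) (rc A') (rc_inv _ _ hAA) (rc_inv _ _ hAA') (noeig T A hT H)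
  have hr1 : ∀ (n : ℕ) w, T^[n] (reL m w) = reL m ((rc A)^[n] w) := fun n w =>
    ((show Function.Semiconj (reL m) (rc A) T from fun w => by
      rw [reL_rc, hT]).iterate_right n w).symm
  have hr2 : ∀ (n : ℕ) w, T.symm^[n] (reL m w) = reL m ((rc A')^[n] w) := fun n w =>
    ((show Function.Semiconj (reL m) (rc A') T.symm from fun w => by
      rw [reL_rc, hTs]).iterate_right n w).symm
  have hi : ∀ v, inc m (T v) = rc A (inc m v) := by
    intro v
    rw [rc_inc, hT]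
  have ho : ∀ w, reL m (rc A w) = T (reL m w) := by
    intro w
    rw [reL_rc, hT]
  exact ⟨
    { s := reL m ∘ₗ (s.restrictScalars ℝ) ∘ₗ inc m
      u := reL m ∘ₗ (u.restrictScalars ℝ) ∘ₗ inc m
      add := fun v => by
        show reL m (s (inc m v)) + reL m (u (inc m v)) = v
        rw [← map_add, hadd, reL_inc]
      cs := fun v => by
        show reL m (s (inc m (T v))) = T (reL m (s (inc m v)))
        rw [hi, hcs, ho]
      cu := fun v => by
        show reL m (u (inc m (T v))) = T (reL m (u (inc m v)))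
        rw [hi, hcu, ho]
      C := C
      l := l
      hC := hC
      hl0 := hl0
      hl1 := hl1
      bs := fun n v => by
        show ‖T^[n] (reL m (s (inc m v)))‖ ≤ _
        rw [hr1]
        refine (reL_norm _).trans ((hbs n _).trans ?_)
        rw [inc_norm]
      bu := fun n v => by
        show ‖T.symm^[n] (reL m (u (inc m v)))‖ ≤ _
        rw [hr2]
        refine (reL_norm _).trans ((hbu n _).trans ?_)
        rw [inc_norm] }⟩

/-- transport of a splitting -/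
theorem hsp_transport {V W : Type*} [NormedAddCommGroup V] [NormedSpace ℝ V]
    [NormedAddCommGroup W] [NormedSpace ℝ W] (T : V ≃ₗ[ℝ] V) (S : W ≃ₗ[ℝ] W)
    (e : V ≃L[ℝ] W) (hS : ∀ v, e (T v) = S (e v)) (h : HSp S) : Nonempty (HSp T) := by
  have hs : ∀ w, e.symm (S w) = T (e.symm w) := by
    intro w
    rw [ContinuousLinearEquiv.symm_apply_eq, hS, e.apply_symm_apply]
  have hs' : ∀ w, e.symm (S.symm w) = T.symm (e.symm w) := by
    intro w
    rw [eq_comm, LinearEquiv.symm_apply_eq, ← hs, S.apply_symm_apply]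
  have hr1 : ∀ (n : ℕ) w, T^[n] (e.symm w) = e.symm (S^[n] w) := fun n w =>
    ((show Function.Semiconj e.symm S T from hs).iterate_right n w).symm
  have hr2 : ∀ (n : ℕ) w, T.symm^[n] (e.symm w) = e.symm (S.symm^[n] w) := fun n w =>
    ((show Function.Semiconj e.symm S.symm T.symm from hs').iterate_right n w).symm
  have hn1 : ∀ w, ‖e.symm w‖ ≤ ‖(e.symm : W →L[ℝ] V)‖ * ‖w‖ := fun w =>
    (e.symm : W →L[ℝ] V).le_opNorm w
  have hn2 : ∀ v, ‖e v‖ ≤ ‖(e : V →L[ℝ] W)‖ * ‖v‖ := fun v => (e : V →L[ℝ] W).le_opNorm v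
  have hb : ∀ (n : ℕ) (v : V) (x : W), ‖x‖ ≤ h.C * h.l ^ n * ‖e v‖ →
      ‖e.symm x‖ ≤ ‖(e.symm : W →L[ℝ] V)‖ * h.C * ‖(e : V →L[ℝ] W)‖ * h.l ^ n * ‖v‖ := by
    intro n v x hx
    have hc : 0 ≤ h.C * h.l ^ n := mul_nonneg h.hC (pow_nonneg h.hl0 n)
    calc ‖e.symm x‖ ≤ ‖(e.symm : W →L[ℝ] V)‖ * ‖x‖ := hn1 x
      _ ≤ ‖(e.symm : W →L[ℝ] V)‖ * (h.C * h.l ^ n * (‖(e : V →L[ℝ] W)‖ * ‖v‖)) :=
          mul_le_mul_of_nonneg_left (hx.trans (mul_le_mul_of_nonneg_left (hn2 v) hc))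
            (norm_nonneg _)
      _ = _ := by ring
  exact ⟨
    { s := (e.symm : W →ₗ[ℝ] V) ∘ₗ h.s ∘ₗ (e : V →ₗ[ℝ] W)
      u := (e.symm : W →ₗ[ℝ] V) ∘ₗ h.u ∘ₗ (e : V →ₗ[ℝ] W)
      add := fun v => by
        show e.symm (h.s (e v)) + e.symm (h.u (e v)) = v
        rw [← map_add, h.add, e.symm_apply_apply]
      cs := fun v => by
        show e.symm (h.s (e (T v))) = T (e.symm (h.s (e v)))
        rw [hS, h.cs, hs]
      cu := fun v => by
        show e.symm (h.u (e (T v))) = T (e.symm (h.u (e v)))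
        rw [hS, h.cu, hs]
      C := ‖(e.symm : W →L[ℝ] V)‖ * h.C * ‖(e : V →L[ℝ] W)‖
      l := h.l
      hC := mul_nonneg (mul_nonneg (norm_nonneg _) h.hC) (norm_nonneg _)
      hl0 := h.hl0
      hl1 := h.hl1
      bs := fun n v => by
        show ‖T^[n] (e.symm (h.s (e v)))‖ ≤ _
        rw [hr1]
        exact hb n v _ (h.bs n (e v))
      bu := fun n v => by
        show ‖T.symm^[n] (e.symm (h.u (e v)))‖ ≤ _
        rw [hr2]
        exact hb n v _ (h.bu n (e v)) }⟩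

universe u

/-- **HYP.** -/
theorem t_HYP : S_HYP.{u} := by
  intro V _ _ _ T H
  have hfr : Module.finrank ℝ V = Module.finrank ℝ (Fin (Module.finrank ℝ V) → ℝ) := by
    rw [Module.finrank_fin_fun]
  let e : V ≃L[ℝ] (Fin (Module.finrank ℝ V) → ℝ) := ContinuousLinearEquiv.ofFinrankEq hfr
  let S : (Fin (Module.finrank ℝ V) → ℝ) ≃ₗ[ℝ] (Fin (Module.finrank ℝ V) → ℝ) :=
    (e.symm.toLinearEquiv.trans T).trans e.toLinearEquiv
  have hS : ∀ v, e (T v) = S (e v) := by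
    intro v
    show e (T v) = e (T (e.symm (e v)))
    rw [e.symm_apply_apply]
  have hS' : ∀ v, e (T.symm v) = S.symm (e v) := by
    intro v
    rw [eq_comm, LinearEquiv.symm_apply_eq, ← hS, T.apply_symm_apply]
  have hr1 : ∀ (n : ℕ) v, e (T^[n] v) = S^[n] (e v) := fun n w =>
    ((show Function.Semiconj e T S from hS).iterate_right n w)
  have hr2 : ∀ (n : ℕ) v, e (T.symm^[n] v) = S.symm^[n] (e v) := fun n w =>
    ((show Function.Semiconj e T.symm S.symm from hS').iterate_right n w)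
  have hH : ∀ (v : Fin (Module.finrank ℝ V) → ℝ) (K : ℝ), (∀ n : ℕ, ‖S^[n] v‖ ≤ K) →
      (∀ n : ℕ, ‖S.symm^[n] v‖ ≤ K) → v = 0 := by
    intro v K h1 h2
    have hn1 : ∀ w, ‖e.symm w‖ ≤
        ‖(e.symm : (Fin (Module.finrank ℝ V) → ℝ) →L[ℝ] V)‖ * ‖w‖ := fun w =>
      (e.symm : (Fin (Module.finrank ℝ V) → ℝ) →L[ℝ] V).le_opNorm w
    have h3 : e.symm v = 0 := by
      refine H (e.symm v)
        (‖(e.symm : (Fin (Module.finrank ℝ V) → ℝ) →L[ℝ] V)‖ * K) (fun n => ?_) (fun n => ?_)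
      · have : T^[n] (e.symm v) = e.symm (S^[n] v) := by
          rw [ContinuousLinearEquiv.eq_symm_apply, hr1, e.apply_symm_apply]
        rw [this]
        exact (hn1 _).trans (mul_le_mul_of_nonneg_left (h1 n) (norm_nonneg _))
      · have : T.symm^[n] (e.symm v) = e.symm (S.symm^[n] v) := by
          rw [ContinuousLinearEquiv.eq_symm_apply, hr2, e.apply_symm_apply]
        rw [this]
        exact (hn1 _).trans (mul_le_mul_of_nonneg_left (h2 n) (norm_nonneg _))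
    have h4 := congrArg e h3
    rwa [e.apply_symm_apply, map_zero] at h4
  obtain ⟨h⟩ := hsp_fin S hH
  exact hsp_transport T S e hS h

end Pool.Agent.D0H65.NIL
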