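import Pool.Agent.D0H26.Nil.Stm3

/-!
# The Lang map of a hyperbolic automorphism is onto
-/

set_option autoImplicit false

open Filter Topology Set Metric

namespace Pool.Agent.D0H65.NIL

open Pool.Agent.D0H26.Fac Pool.Agent.D0H26.Nil

section

variable {V : Type*} [NormedAddCommGroup V] [NormedSpace ℝ V] [Group V]

/-- a fixed vector is zero -/
theorem fix_zero (D : NB V) (v : V) (h : D.T v = v) : v = 0 := by
  have h1 : ∀ n : ℕ, D.T^[n] v = v := fun n => Function.iterate_fixed h n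
  have h' : D.T.symm v = v := by rw [LinearEquiv.symm_apply_eq, h]
  have h2 : ∀ n : ℕ, D.T.symm^[n] v = v := fun n => Function.iterate_fixed h' n
  exact D.H.eq_zero v ‖v‖ (fun n => by rw [h1]) (fun n => by rw [h2])

/-- the linear equation in a term of the series -/
theorem lin_solve [FiniteDimensional ℝ V] (D : NB V) (i : ℕ) (c : V) (hc : c ∈ D.W i) :
    ∃ x ∈ D.W i, x - D.T x = c := by
  let L : D.W i →ₗ[ℝ] D.W i :=
    LinearMap.id - (D.T : V →ₗ[ℝ] V).restrict (D.WT i)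
  have hL : Function.Injective L := by
    rw [injective_iff_map_eq_zero]
    intro a ha
    have h1 : (a : V) - D.T a = 0 := congrArg Subtype.val ha
    have h2 : (a : V) = 0 := fix_zero D a (sub_eq_zero.1 h1).symm
    exact Subtype.ext h2
  obtain ⟨x, hx⟩ := LinearMap.injective_iff_surjective.mp hL ⟨c, hc⟩
  exact ⟨x, x.2, congrArg Subtype.val hx⟩

/-- the Lang map in the terms of the series -/
theorem lang_aux [FiniteDimensional ℝ V] (D : NB V) (k : ℕ) :
    ∀ i, i + k = D.n → ∀ c ∈ D.W i, ∃ x ∈ D.W i, x * (D.T x)⁻¹ = c := by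
  induction k with
  | zero =>
    intro i hi c hc
    rw [add_zero] at hi
    rw [hi, D.Wn, Submodule.mem_bot] at hc
    refine ⟨1, D.W_one i, ?_⟩
    rw [D.T_one, inv_one, mul_one, hc, D.one_eq]
  | succ k ih =>
    intro i hi c hc
    obtain ⟨x, hx, hxc⟩ := lin_solve D i c hc
    have hTx : D.T x ∈ D.W i := D.WT i x hx
    have h1 : x⁻¹ * c - (x⁻¹ + c) ∈ D.W (i + 1) := D.W_add _ hc
    have h2 : x⁻¹ * c * D.T x - (x⁻¹ * c + D.T x) ∈ D.W (i + 1) := D.W_add _ hTx
    have h3 : x⁻¹ * c * D.T x ∈ D.W (i + 1) := by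
      have h4 := (D.W (i + 1)).add_mem h2 h1
      have h5 : x⁻¹ * c * D.T x - (x⁻¹ * c + D.T x) + (x⁻¹ * c - (x⁻¹ + c)) =
          x⁻¹ * c * D.T x := by
        have h6 : x⁻¹ = -x := D.inv_eq x
        have h7 : D.T x = x - c := by rw [← hxc]; abel
        have h8 : x⁻¹ + c + D.T x = 0 := by rw [h6, h7]; abel
        calc x⁻¹ * c * D.T x - (x⁻¹ * c + D.T x) + (x⁻¹ * c - (x⁻¹ + c))
            = x⁻¹ * c * D.T x - (x⁻¹ + c + D.T x) := by abel
          _ = x⁻¹ * c * D.T x := by rw [h8, sub_zero]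
      rwa [h5] at h4
    obtain ⟨y, hy, hyc⟩ := ih (i + 1) (by omega) _ h3
    refine ⟨x * y, D.W_mul hx (D.Wanti i hy), ?_⟩
    rw [D.Tmul, mul_inv_rev, mul_assoc, ← mul_assoc y, hyc]
    group

end

universe u

/-- **LANG.** -/
theorem t_LANG : S_LANG.{u} := by
  intro V _ _ _ _ D c
  obtain ⟨x, _, hx⟩ := lang_aux D D.n 0 (by omega) c (by rw [D.W0]; exact Submodule.mem_top)
  exact ⟨x, hx⟩

end Pool.Agent.D0H65.NIL
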